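import Pool.Agent.Helper34.BIC.Tutte

open Set
open scoped Matroid

namespace BIC

variable {α : Type*}

/-- the connectivity function of `M` (integer valued) -/
noncomputable def lam (M : Matroid α) (A : Set α) : ℤ :=
  (rk M A : ℤ) + rk M (M.E \ A) - rk M M.E

lemma lam_compl {M : Matroid α} {A : Set α} (hA : A ⊆ M.E) : lam M (M.E \ A) = lam M A := by
  unfold lam
  rw [sdiff_sdiff_cancel_left hA]
  ring

lemma lam_submod {M : Matroid α} [M.Finite] {A B : Set α} :
    lam M (A ∩ B) + lam M (A ∪ B) ≤ lam M A + lam M B := by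
  have s1 := rk_submod M A B
  have s2 := rk_submod M (M.E \ A) (M.E \ B)
  have t1 : (M.E \ A) ∩ (M.E \ B) = M.E \ (A ∪ B) := by
    ext x; simp only [mem_inter_iff, mem_sdiff, mem_union]; tauto
  have t2 : (M.E \ A) ∪ (M.E \ B) = M.E \ (A ∩ B) := by
    ext x; simp only [mem_inter_iff, mem_sdiff, mem_union]; tauto
  rw [t1, t2] at s2
  unfold lam
  omega

lemma lam_nonneg {M : Matroid α} [M.Finite] {A : Set α} (hA : A ⊆ M.E) : 0 ≤ lam M A := by
  have s1 := rk_submod M A (M.E \ A)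
  rw [union_sdiff_cancel hA] at s1
  unfold lam
  omega

lemma lam_dual {M : Matroid α} [M.Finite] {A : Set α} (hA : A ⊆ M.E) : lam M✶ A = lam M A := by
  have h1 := rk_dual hA
  have h2 := rk_dual (M := M) (X := M.E \ A) sdiff_subset
  have h3 := rk_dual (M := M) (X := M.E) (subset_refl _)
  have h5 := Set.ncard_sdiff_add_ncard_of_subset hA M.ground_finite
  rw [sdiff_sdiff_cancel_left hA] at h2
  have h6 : rk M (M.E \ M.E) = 0 := by
    rw [sdiff_self]
    have : rk M (∅ : Set α) ≤ (∅ : Set α).ncard := rk_le_ncard M finite_empty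
    simpa using this
  unfold lam
  rw [Matroid.dual_ground]
  omega

lemma rk_insert_le {M : Matroid α} [M.Finite] (e : α) (X : Set α) :
    rk M (insert e X) ≤ rk M X + 1 := by
  have := rk_union_le M (X := X) (Y := {e}) (finite_singleton e)
  rw [Set.ncard_singleton, union_singleton] at this
  exact this

/-- diminishing returns -/
lemma rk_insert_mono {M : Matroid α} [M.Finite] (e : α) {X Y : Set α} (h : X ⊆ Y) :
    rk M (insert e Y) + rk M X ≤ rk M Y + rk M (insert e X) := by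
  have s := rk_submod M (insert e X) Y
  have t1 : insert e X ∪ Y = insert e Y := by
    rw [insert_union, union_eq_self_of_subset_left h]
  rw [t1] at s
  have t2 : rk M X ≤ rk M (insert e X ∩ Y) := rk_mono M (subset_inter (subset_insert _ _) h)
  omega

lemma insert_sdiff_del {E A : Set α} {e : α} (he : e ∈ E) (heA : e ∉ A) :
    insert e ((E \ {e}) \ A) = E \ A := by
  ext x
  simp only [mem_insert_iff, mem_sdiff, mem_singleton_iff]
  constructor
  · rintro (rfl | ⟨⟨a, b⟩, c⟩)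
    · exact ⟨he, heA⟩
    · exact ⟨a, c⟩
  · rintro ⟨a, b⟩
    by_cases hx : x = e
    · exact Or.inl hx
    · exact Or.inr ⟨⟨a, hx⟩, b⟩

lemma sdiff_insert_del {E A : Set α} {e : α} : E \ insert e A = (E \ {e}) \ A := by
  ext x; simp only [mem_sdiff, mem_insert_iff, mem_singleton_iff]; tauto

/-- the deletion `M \ e` in rank form -/
lemma lam_del_eq {M : Matroid α} [M.Finite] {A : Set α} {e : α} (hA : A ⊆ M.E \ {e}) :
    lam (M ＼ {e}) A = (rk M A : ℤ) + rk M ((M.E \ {e}) \ A) - rk M (M.E \ {e}) := by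
  unfold lam
  rw [Matroid.delete_ground, rk_delete hA, rk_delete sdiff_subset, rk_delete (subset_refl _)]

lemma lam_del_le {M : Matroid α} [M.Finite] {A : Set α} {e : α} (he : e ∈ M.E)
    (hA : A ⊆ M.E \ {e}) : lam (M ＼ {e}) A ≤ lam M A := by
  rw [lam_del_eq hA]
  unfold lam
  have heA : e ∉ A := fun h => (hA h).2 rfl
  have h1 := rk_insert_mono (M := M) e (X := (M.E \ {e}) \ A) (Y := M.E \ {e}) sdiff_subset
  rw [insert_sdiff_del he heA, insert_sdiff_singleton, insert_eq_of_mem he] at h1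
  omega

lemma lam_del_insert_le {M : Matroid α} [M.Finite] {A : Set α} {e : α} (he : e ∈ M.E)
    (hA : A ⊆ M.E \ {e}) : lam (M ＼ {e}) A ≤ lam M (insert e A) := by
  rw [lam_del_eq hA]
  unfold lam
  rw [sdiff_insert_del]
  have h1 := rk_insert_mono (M := M) e hA
  rw [insert_sdiff_singleton, insert_eq_of_mem he] at h1
  omega

lemma le_lam_del {M : Matroid α} [M.Finite] {A : Set α} {e : α} (he : e ∈ M.E)
    (hA : A ⊆ M.E \ {e}) : lam M A ≤ lam (M ＼ {e}) A + 1 := by
  rw [lam_del_eq hA]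
  unfold lam
  have heA : e ∉ A := fun h => (hA h).2 rfl
  have h1 := rk_insert_le (M := M) e ((M.E \ {e}) \ A)
  rw [insert_sdiff_del he heA] at h1
  have h2 := rk_mono M (show M.E \ {e} ⊆ M.E from sdiff_subset)
  omega

/-- rank in a contraction by one element -/
lemma rk_con {M : Matroid α} [M.Finite] {X : Set α} {e : α} (he : e ∈ M.E)
    (hX : X ⊆ M.E \ {e}) : rk (M ／ {e}) X + rk M {e} = rk M (insert e X) := by
  by_cases h : M.IsNonloop e
  · have h1 : rk M {e} = 1 := by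
      rw [rk_indep h.indep, Set.ncard_singleton]
    rw [h1]
    exact rk_contract h hX
  · have hl : e ∈ M.closure ∅ := by
      by_contra hl
      exact h ⟨hl, he⟩
    have h1 : rk M {e} = 0 := by
      have : rk M (M.closure {e}) = rk M (M.closure ∅) := by
        rw [show ({e} : Set α) = insert e ∅ by simp,
          Matroid.closure_insert_eq_of_mem_closure hl]
      rw [rk_closure, rk_closure] at this
      rw [this]
      have : rk M (∅ : Set α) ≤ (∅ : Set α).ncard := rk_le_ncard M finite_empty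
      simpa using this
    have h2 : rk M (insert e X) = rk M X := by
      rw [← rk_closure, Matroid.closure_insert_eq_of_mem_closure
        (M.closure_subset_closure (empty_subset X) hl), rk_closure]
    have h3 : M ／ {e} = M ＼ {e} := by
      refine Matroid.contract_eq_delete_of_subset_loops ?_
      rw [singleton_subset_iff]
      exact hl
    rw [h1, h2, h3, rk_delete hX]
    rfl

lemma lam_con_eq {M : Matroid α} [M.Finite] {A : Set α} {e : α} (he : e ∈ M.E)
    (hA : A ⊆ M.E \ {e}) :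
    lam (M ／ {e}) A = (rk M (insert e A) : ℤ) + rk M (M.E \ A) - rk M M.E - rk M {e} := by
  have heA : e ∉ A := fun h => (hA h).2 rfl
  have h1 := rk_con he hA
  have h2 := rk_con he (show (M.E \ {e}) \ A ⊆ M.E \ {e} from sdiff_subset)
  have h3 := rk_con he (subset_refl (M.E \ {e}))
  rw [insert_sdiff_del he heA] at h2
  rw [insert_sdiff_singleton, insert_eq_of_mem he] at h3
  unfold lam
  rw [Matroid.contract_ground]
  omega

lemma rk_empty {M : Matroid α} [M.Finite] : rk M (∅ : Set α) = 0 := by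
  have : rk M (∅ : Set α) ≤ (∅ : Set α).ncard := rk_le_ncard M finite_empty
  simpa using this

lemma lam_con_le {M : Matroid α} [M.Finite] {A : Set α} {e : α} (he : e ∈ M.E)
    (hA : A ⊆ M.E \ {e}) : lam (M ／ {e}) A ≤ lam M A := by
  rw [lam_con_eq he hA]
  unfold lam
  have h1 := rk_insert_mono (M := M) e (empty_subset A)
  rw [insert_empty_eq, rk_empty] at h1
  omega

lemma lam_con_insert_le {M : Matroid α} [M.Finite] {A : Set α} {e : α} (he : e ∈ M.E)
    (hA : A ⊆ M.E \ {e}) : lam (M ／ {e}) A ≤ lam M (insert e A) := by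
  rw [lam_con_eq he hA]
  unfold lam
  rw [sdiff_insert_del]
  have heA : e ∉ A := fun h => (hA h).2 rfl
  have h1 := rk_insert_mono (M := M) e (empty_subset ((M.E \ {e}) \ A))
  rw [insert_empty_eq, rk_empty, insert_sdiff_del he heA] at h1
  omega

lemma le_lam_con {M : Matroid α} [M.Finite] {A : Set α} {e : α} (he : e ∈ M.E)
    (hA : A ⊆ M.E \ {e}) : lam M A ≤ lam (M ／ {e}) A + 1 := by
  rw [lam_con_eq he hA]
  unfold lam
  have h1 := rk_mono M (subset_insert e A)
  have h2 := rk_insert_le (M := M) e ∅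
  rw [insert_empty_eq, rk_empty] at h2
  omega

/-- rank in a contraction by a set -/
lemma rk_conSet {M : Matroid α} [M.Finite] {X C : Set α} (hC : C ⊆ M.E) (hX : X ⊆ M.E \ C) :
    rk (M ／ C) X + rk M C = rk M (X ∪ C) := by
  obtain ⟨I, hI⟩ := M.exists_isBasis C hC
  have hXI : X ⊆ (M ／ I).E := by
    rw [Matroid.contract_ground]
    intro x hx
    exact ⟨(hX hx).1, fun h => (hX hx).2 (hI.subset h)⟩
  have hXD : X ⊆ (M ／ I).E \ (C \ I) := fun x hx => ⟨hXI hx, fun h => (hX hx).2 h.1⟩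
  have hfinI : (M ／ I).Finite := ⟨M.ground_finite.subset sdiff_subset⟩
  rw [hI.contract_eq_contract_delete, rk_delete hXD]
  obtain ⟨J, hJ⟩ := (M ／ I).exists_isBasis X hXI
  have h1 := hI.indep.union_isBasis_union_of_contract_isBasis hJ
  have h2 : rk (M ／ I) X = J.ncard := by
    unfold rk
    rw [← hJ.encard_eq_eRk]
    rfl
  have h3 : rk M (X ∪ I) = (J ∪ I).ncard := by
    unfold rk
    rw [← h1.encard_eq_eRk]
    rfl
  have h4 : rk M C = I.ncard := by
    unfold rk
    rw [← hI.encard_eq_eRk]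
    rfl
  have h5 : rk M (X ∪ C) = rk M (X ∪ I) := by
    rw [← rk_closure, ← Matroid.closure_union_closure_right_eq, ← hI.closure_eq_closure,
      Matroid.closure_union_closure_right_eq, rk_closure]
  have hdj : Disjoint J I := by
    rw [Set.disjoint_left]
    intro x hx hxI
    exact (hX (hJ.subset hx)).2 (hI.subset hxI)
  have hJf : J.Finite := M.ground_finite.subset (hJ.subset.trans (hX.trans sdiff_subset))
  have hIf : I.Finite := M.ground_finite.subset (hI.subset.trans hC)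
  rw [h2, h4, h5, h3, Set.ncard_union_eq hdj hJf hIf]

/-- A minor in rank form. -/
lemma minor_rk {M N : Matroid α} [M.Finite] (h : N ≤m M) :
    ∃ C D : Set α, C ⊆ M.E ∧ D ⊆ M.E ∧ Disjoint C D ∧ N.E = (M.E \ C) \ D ∧ N = M ／ C ＼ D ∧
      ∀ A ⊆ N.E, rk N A + rk M C = rk M (A ∪ C) := by
  obtain ⟨C, D, hC, hD, hCD, rfl⟩ := h.exists_eq_contract_delete_disjoint
  refine ⟨C, D, hC, hD, hCD, rfl, rfl, ?_⟩
  intro A hA
  have hA' : A ⊆ (M ／ C).E \ D := hA
  rw [rk_delete hA']
  exact rk_conSet hC (hA'.trans sdiff_subset)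

/-- Connectivity in a minor, function form. -/
lemma lamS {M : Matroid α} [M.Finite] (W : Set α) {Z R C A : Set α} (hR : R ⊆ Z) (hC : C ⊆ Z)
    (hA : A ⊆ Z) :
    (rk M (((A ∩ R) ∪ C) ∪ W) : ℤ) + rk M (((R \ A) ∪ C) ∪ W) - rk M ((R ∪ C) ∪ W) - rk M (C ∪ W)
      ≤ rk M (A ∪ W) + rk M ((Z \ A) ∪ W) - rk M (Z ∪ W) - rk M W := by
  have d1 := rk_submod M (A ∪ W) ((R ∪ C) ∪ W)
  have d2 := rk_submod M ((A ∪ (R ∪ C)) ∪ W) ((Z \ A) ∪ W)
  have e1 : (A ∪ W) ∪ ((R ∪ C) ∪ W) = (A ∪ (R ∪ C)) ∪ W := by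
    ext x; simp only [mem_union]; tauto
  have e2 : (A ∪ W) ∩ ((R ∪ C) ∪ W) = (A ∩ (R ∪ C)) ∪ W := by
    ext x; simp only [mem_union, mem_inter_iff]; tauto
  have e3 : ((A ∪ (R ∪ C)) ∪ W) ∪ ((Z \ A) ∪ W) = Z ∪ W := by
    ext x
    have a1 := @hR x
    have a2 := @hC x
    have a3 := @hA x
    simp only [mem_union, mem_sdiff]; tauto
  have e4 : ((A ∪ (R ∪ C)) ∪ W) ∩ ((Z \ A) ∪ W) = (((R ∪ C) \ A) ∪ W) := by
    ext x
    have a1 := @hR x
    have a2 := @hC x
    have a3 := @hA x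
    simp only [mem_union, mem_sdiff, mem_inter_iff]; tauto
  rw [e1, e2] at d1
  rw [e3, e4] at d2
  have c1 := rk_submod M ((A ∩ (R ∪ C)) ∪ W) (C ∪ W)
  have c2 := rk_submod M (((R ∪ C) \ A) ∪ W) (C ∪ W)
  have c3 := rk_submod M ((A ∩ C) ∪ W) ((C \ A) ∪ W)
  have f1 : ((A ∩ (R ∪ C)) ∪ W) ∪ (C ∪ W) = ((A ∩ R) ∪ C) ∪ W := by
    ext x; simp only [mem_union, mem_inter_iff]; tauto
  have f2 : ((A ∩ (R ∪ C)) ∪ W) ∩ (C ∪ W) = (A ∩ C) ∪ W := by
    ext x; simp only [mem_union, mem_inter_iff]; tauto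
  have f3 : (((R ∪ C) \ A) ∪ W) ∪ (C ∪ W) = ((R \ A) ∪ C) ∪ W := by
    ext x; simp only [mem_union, mem_sdiff]; tauto
  have f4 : (((R ∪ C) \ A) ∪ W) ∩ (C ∪ W) = (C \ A) ∪ W := by
    ext x; simp only [mem_union, mem_sdiff, mem_inter_iff]; tauto
  have f5 : ((A ∩ C) ∪ W) ∪ ((C \ A) ∪ W) = C ∪ W := by
    ext x; simp only [mem_union, mem_sdiff, mem_inter_iff]; tauto
  have f6 : ((A ∩ C) ∪ W) ∩ ((C \ A) ∪ W) = W := by
    ext x; simp only [mem_union, mem_sdiff, mem_inter_iff]; tauto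
  rw [f1, f2] at c1
  rw [f3, f4] at c2
  rw [f5, f6] at c3
  omega

end BIC
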