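import Pool.Agent.Helper63.GS.Lam

open Set
open scoped Matroid

namespace BIC

variable {α : Type*}

lemma lam_minor {M N : Matroid α} [M.Finite] (h : N ≤m M) {A : Set α} (hA : A ⊆ M.E) :
    lam N (A ∩ N.E) ≤ lam M A := by
  obtain ⟨C, D, hC, hD, hCD, hE, -, hr⟩ := minor_rk h
  have hR : N.E ⊆ M.E := h.subset
  have h1 := lamS (M := M) ∅ hR hC hA
  simp only [union_empty] at h1
  have r1 := hr (A ∩ N.E) inter_subset_right
  have r2 := hr (N.E \ A) sdiff_subset
  have r3 := hr N.E (subset_refl _)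
  have e1 : N.E \ (A ∩ N.E) = N.E \ A := by
    ext x; simp only [mem_sdiff, mem_inter_iff]; tauto
  unfold lam
  rw [e1]
  rw [rk_empty] at h1
  omega

/-- `N` is sandwiched on `X ⊆ P.E` between `P ↾ X` and `P ／ (P.E \ X)` (rank form). -/
def Sandw (P N : Matroid α) (X : Set α) : Prop :=
  (∀ A B, A ⊆ B → B ⊆ X → rk N B + rk P A ≤ rk N A + rk P B) ∧
  (∀ A B, A ⊆ B → B ⊆ X → rk P (B ∪ (P.E \ X)) + rk N A ≤ rk P (A ∪ (P.E \ X)) + rk N B)

/-- The working form: `N = M ／ (C \ Z)` restricted to `Z`. -/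
def Sand (M P : Matroid α) (C Z : Set α) : Prop :=
  (∀ A B, A ⊆ B → B ⊆ Z → rk M (B ∪ (C \ Z)) + rk P A ≤ rk M (A ∪ (C \ Z)) + rk P B) ∧
  (∀ A B, A ⊆ B → B ⊆ Z →
    rk P (B ∪ (P.E \ Z)) + rk M (A ∪ (C \ Z)) ≤ rk P (A ∪ (P.E \ Z)) + rk M (B ∪ (C \ Z)))

lemma Sand.del_mem {M P : Matroid α} [P.Finite] {C Z : Set α} (h : Sand M P C Z) {e : α}
    (hZ : Z ⊆ P.E) (heZ : e ∈ Z) (heC : e ∉ C) : Sand M (P ＼ {e}) C (Z \ {e}) := by
  have c1 : C \ (Z \ {e}) = C \ Z := by
    ext x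
    simp only [mem_sdiff, mem_singleton_iff]
    constructor
    · rintro ⟨a, b⟩
      exact ⟨a, fun c => b ⟨c, fun d => heC (d ▸ a)⟩⟩
    · rintro ⟨a, b⟩
      exact ⟨a, fun c => b c.1⟩
  have c2 : (P.E \ {e}) \ (Z \ {e}) = P.E \ Z := by
    ext x
    simp only [mem_sdiff, mem_singleton_iff]
    constructor
    · rintro ⟨⟨a, b⟩, c⟩
      exact ⟨a, fun d => c ⟨d, b⟩⟩
    · rintro ⟨a, b⟩
      exact ⟨⟨a, fun d => b (d ▸ heZ)⟩, fun d => b d.1⟩
  have hZ' : Z \ {e} ⊆ P.E \ {e} := sdiff_subset_sdiff_left hZ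
  constructor
  · intro A B hAB hB
    rw [c1, rk_delete (hAB.trans (hB.trans hZ')), rk_delete (hB.trans hZ')]
    exact h.1 A B hAB (hB.trans sdiff_subset)
  · intro A B hAB hB
    have hW : P.E \ Z ⊆ P.E \ {e} := by rw [← c2]; exact sdiff_subset
    rw [c1, Matroid.delete_ground, c2, rk_delete (union_subset (hB.trans hZ') hW),
      rk_delete (union_subset (hAB.trans (hB.trans hZ')) hW)]
    exact h.2 A B hAB (hB.trans sdiff_subset)

lemma Sand.con_mem {M P : Matroid α} [P.Finite] {C Z : Set α} (h : Sand M P C Z) {e : α}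
    (hZ : Z ⊆ P.E) (heZ : e ∈ Z) (heC : e ∈ C) : Sand M (P ／ {e}) C (Z \ {e}) := by
  have c1 : C \ (Z \ {e}) = insert e (C \ Z) := by
    ext x
    simp only [mem_sdiff, mem_singleton_iff, mem_insert_iff]
    constructor
    · rintro ⟨a, b⟩
      by_cases hx : x = e
      · exact Or.inl hx
      · exact Or.inr ⟨a, fun c => b ⟨c, hx⟩⟩
    · rintro (rfl | ⟨a, b⟩)
      · exact ⟨heC, fun h => h.2 rfl⟩
      · exact ⟨a, fun c => b c.1⟩
  have c2 : (P.E \ {e}) \ (Z \ {e}) = P.E \ Z := by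
    ext x
    simp only [mem_sdiff, mem_singleton_iff]
    constructor
    · rintro ⟨⟨a, b⟩, c⟩
      exact ⟨a, fun d => c ⟨d, b⟩⟩
    · rintro ⟨a, b⟩
      exact ⟨⟨a, fun d => b (d ▸ heZ)⟩, fun d => b d.1⟩
  have hZ' : Z \ {e} ⊆ P.E \ {e} := sdiff_subset_sdiff_left hZ
  have he : e ∈ P.E := hZ heZ
  have key : ∀ A : Set α, A ∪ insert e (C \ Z) = insert e A ∪ (C \ Z) := by
    intro A; ext x; simp only [mem_union, mem_insert_iff]; tauto
  have hW : P.E \ Z ⊆ P.E \ {e} := by rw [← c2]; exact sdiff_subset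
  have key2 : ∀ A : Set α, insert e (A ∪ (P.E \ Z)) = insert e A ∪ (P.E \ Z) := by
    intro A; ext x; simp only [mem_union, mem_insert_iff]; tauto
  constructor
  · intro A B hAB hB
    have r1 := rk_con he (hAB.trans (hB.trans hZ'))
    have r2 := rk_con he (hB.trans hZ')
    have h1 := h.1 (insert e A) (insert e B) (insert_subset_insert hAB)
      (insert_subset heZ (hB.trans sdiff_subset))
    rw [c1, key, key]
    omega
  · intro A B hAB hB
    have r1 := rk_con he (union_subset (hAB.trans (hB.trans hZ')) hW)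
    have r2 := rk_con he (union_subset (hB.trans hZ') hW)
    have h1 := h.2 (insert e A) (insert e B) (insert_subset_insert hAB)
      (insert_subset heZ (hB.trans sdiff_subset))
    rw [key2] at r1 r2
    rw [c1, key, key, Matroid.contract_ground, c2]
    omega

lemma Sand.del_out {M P : Matroid α} [P.Finite] {C Z : Set α} (h : Sand M P C Z) {e : α}
    (hZ : Z ⊆ P.E) (he : e ∈ P.E) (heZ : e ∉ Z) (hl : lam P Z ≤ lam (P ＼ {e}) Z) :
    Sand M (P ＼ {e}) C Z := by
  have hZ' : Z ⊆ P.E \ {e} := fun x hx => ⟨hZ hx, fun hh => heZ (hh ▸ hx)⟩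
  have hS : (P.E \ {e}) \ Z ⊆ P.E \ {e} := sdiff_subset
  have hins : ∀ A : Set α, insert e (A ∪ ((P.E \ {e}) \ Z)) = A ∪ (P.E \ Z) := by
    intro A
    rw [← insert_sdiff_del he heZ]
    ext x; simp only [mem_union, mem_insert_iff]; tauto
  have hEE : Z ∪ ((P.E \ {e}) \ Z) = P.E \ {e} := union_sdiff_cancel hZ'
  have hEE' : Z ∪ (P.E \ Z) = P.E := union_sdiff_cancel hZ
  constructor
  · intro A B hAB hB
    rw [rk_delete (hAB.trans (hB.trans hZ')), rk_delete (hB.trans hZ')]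
    exact h.1 A B hAB hB
  · intro A B hAB hB
    rw [Matroid.delete_ground, rk_delete (union_subset (hB.trans hZ') hS),
      rk_delete (union_subset (hAB.trans (hB.trans hZ')) hS)]
    have h1 := h.2 A B hAB hB
    rw [lam_del_eq hZ'] at hl
    unfold lam at hl
    -- f decreasing
    have m1 := rk_insert_mono (M := P) e (show (∅ : Set α) ∪ ((P.E \ {e}) \ Z) ⊆
      A ∪ ((P.E \ {e}) \ Z) from union_subset_union_left _ (empty_subset _))
    have m2 := rk_insert_mono (M := P) e (show A ∪ ((P.E \ {e}) \ Z) ⊆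
      B ∪ ((P.E \ {e}) \ Z) from union_subset_union_left _ hAB)
    have m3 := rk_insert_mono (M := P) e (show B ∪ ((P.E \ {e}) \ Z) ⊆
      Z ∪ ((P.E \ {e}) \ Z) from union_subset_union_left _ hB)
    rw [hins, hins] at m1 m2 m3
    rw [empty_union, empty_union] at m1
    rw [hEE, hEE'] at m3
    omega

lemma Sand.con_out {M P : Matroid α} [P.Finite] {C Z : Set α} (h : Sand M P C Z) {e : α}
    (hZ : Z ⊆ P.E) (he : e ∈ P.E) (heZ : e ∉ Z) (hl : lam P Z ≤ lam (P ／ {e}) Z) :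
    Sand M (P ／ {e}) C Z := by
  have hZ' : Z ⊆ P.E \ {e} := fun x hx => ⟨hZ hx, fun hh => heZ (hh ▸ hx)⟩
  have hS : (P.E \ {e}) \ Z ⊆ P.E \ {e} := sdiff_subset
  have hins : ∀ A : Set α, insert e (A ∪ ((P.E \ {e}) \ Z)) = A ∪ (P.E \ Z) := by
    intro A
    rw [← insert_sdiff_del he heZ]
    ext x; simp only [mem_union, mem_insert_iff]; tauto
  rw [lam_con_eq he hZ'] at hl
  unfold lam at hl
  constructor
  · intro A B hAB hB
    have r1 := rk_con he (hAB.trans (hB.trans hZ'))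
    have r2 := rk_con he (hB.trans hZ')
    have m1 := rk_insert_mono (M := P) e (empty_subset A)
    have m2 := rk_insert_mono (M := P) e hAB
    have m3 := rk_insert_mono (M := P) e hB
    rw [insert_empty_eq, rk_empty] at m1
    have h1 := h.1 A B hAB hB
    omega
  · intro A B hAB hB
    have r1 := rk_con he (union_subset (hAB.trans (hB.trans hZ')) hS)
    have r2 := rk_con he (union_subset (hB.trans hZ') hS)
    rw [hins] at r1 r2
    rw [Matroid.contract_ground]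
    have h1 := h.2 A B hAB hB
    omega

/-- Connectivity in the sandwiched minor. -/
lemma Sand.lam_le {M P : Matroid α} [M.Finite] [P.Finite] {C Z R : Set α} (h : Sand M P C Z)
    (hZ : Z ⊆ P.E) (hR : R ⊆ Z) {A : Set α} (hA : A ⊆ Z) :
    (rk M ((A ∩ R) ∪ C) : ℤ) + rk M ((R \ A) ∪ C) - rk M (R ∪ C) - rk M C ≤ lam P A := by
  have h1 := lamS (M := M) (C \ Z) hR (show C ∩ Z ⊆ Z from inter_subset_right) hA
  have e1 : ∀ B : Set α, (B ∪ (C ∩ Z)) ∪ (C \ Z) = B ∪ C := by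
    intro B; ext x; simp only [mem_union, mem_inter_iff, mem_sdiff]; tauto
  have e2 : (C ∩ Z) ∪ (C \ Z) = C := inter_union_sdiff C Z
  rw [e1, e1, e1, e2] at h1
  have h2 := h.1 ∅ A (empty_subset _) hA
  have h3 := h.2 (Z \ A) Z sdiff_subset (subset_refl _)
  rw [rk_empty, empty_union] at h2
  have e3 : Z ∪ (P.E \ Z) = P.E := union_sdiff_cancel hZ
  have e4 : (Z \ A) ∪ (P.E \ Z) = P.E \ A := by
    ext x
    have a1 := @hA x
    have a2 := @hZ x
    simp only [mem_union, mem_sdiff]; tauto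
  rw [e3, e4] at h3
  unfold lam
  omega

/-- From the working form to the final form. -/
lemma Sand.toSandw {M P N : Matroid α} [M.Finite] [P.Finite] {C Z X : Set α} (h : Sand M P C Z)
    (hZ : Z ⊆ P.E) (hX : X ⊆ Z) (hXC : Disjoint X C)
    (hN : ∀ A ⊆ X, rk N A + rk M C = rk M (A ∪ C)) : Sandw P N X := by
  have e1 : ∀ B : Set α, (B ∪ (C ∩ Z)) ∪ (C \ Z) = B ∪ C := by
    intro B; ext x; simp only [mem_union, mem_inter_iff, mem_sdiff]; tauto
  have hin : ∀ A : Set α, A ⊆ X → A ∪ (C ∩ Z) ⊆ Z := fun A hA =>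
    union_subset (hA.trans hX) inter_subset_right
  constructor
  · intro A B hAB hB
    have n1 := hN A (hAB.trans hB)
    have n2 := hN B hB
    have h1 := h.1 (A ∪ (C ∩ Z)) (B ∪ (C ∩ Z)) (union_subset_union_left _ hAB) (hin B hB)
    rw [e1, e1] at h1
    have s := rk_submod P (A ∪ (C ∩ Z)) B
    have t1 : (A ∪ (C ∩ Z)) ∪ B = B ∪ (C ∩ Z) := by
      ext x
      have a1 := @hAB x
      simp only [mem_union, mem_inter_iff]; tauto
    have t2 : rk P A ≤ rk P ((A ∪ (C ∩ Z)) ∩ B) := rk_mono P (subset_inter subset_union_left hAB)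
    rw [t1] at s
    omega
  · intro A B hAB hB
    have n1 := hN A (hAB.trans hB)
    have n2 := hN B hB
    have h1 := h.2 (A ∪ (C ∩ Z)) (B ∪ (C ∩ Z)) (union_subset_union_left _ hAB) (hin B hB)
    rw [e1, e1] at h1
    have s := rk_submod P ((B ∪ (C ∩ Z)) ∪ (P.E \ Z)) (A ∪ (P.E \ X))
    have t1 : ((B ∪ (C ∩ Z)) ∪ (P.E \ Z)) ∪ (A ∪ (P.E \ X)) = B ∪ (P.E \ X) := by
      ext x
      have a1 := @hAB x
      have a2 := @hX x
      have a3 := @hZ x
      have a4 : x ∈ X → x ∉ C := fun hx => Set.disjoint_left.1 hXC hx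
      have a5 := @hB x
      simp only [mem_union, mem_inter_iff, mem_sdiff]; tauto
    have t2 : rk P ((A ∪ (C ∩ Z)) ∪ (P.E \ Z)) ≤
        rk P (((B ∪ (C ∩ Z)) ∪ (P.E \ Z)) ∩ (A ∪ (P.E \ X))) := by
      refine rk_mono P ?_
      intro x hx
      have a1 := @hAB x
      have a2 := @hX x
      have a3 := @hZ x
      have a4 : x ∈ X → x ∉ C := fun hx => Set.disjoint_left.1 hXC hx
      simp only [mem_union, mem_inter_iff, mem_sdiff] at hx ⊢
      tauto
    rw [t1] at s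
    omega

end BIC
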